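import Pool.Agent.Lib.MP_c25556_co.Main

/-!
Every connected rooted graph `(F, r)` on at least three vertices, other than a star rooted at
its center, admits infinitely many pairwise non-isomorphic `(F)_r`-irregular graphs.
-/

namespace Pool.Agent.Results.MP_c25556_co.RootedIrregular

open Pool.Agent.Lib.MP_c25556_co

/-- For every connected graph `F` on at least three vertices and every root `r`, except when
`F` is the star whose center is `r`, there is an infinite sequence of pairwise non-isomorphic
finite graphs each of which is `(F)_r`-irregular. -/
theorem result {W : Type*} [Fintype W] (F : SimpleGraph W) (hF : F.Connected)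
    (hcard : 3 ≤ Fintype.card W) (r : W) (hstar : F ≠ SimpleGraph.starGraph r) :
    ∃ (n : ℕ → ℕ) (G : (m : ℕ) → SimpleGraph (Fin (n m))),
      (∀ m, RootedIrregular F r (G m)) ∧
        ∀ m m' : ℕ, m ≠ m' → IsEmpty (G m ≃g G m') := by
  choose g hg G hG using exists_large F hF hcard r hstar
  let a : ℕ → ℕ := fun m => Nat.rec 0 (fun _ x => g x + 1) m
  have ha : ∀ m, a (m + 1) = g (a m) + 1 := fun m => rfl
  have hmono : StrictMono (fun m => g (a m)) := by
    apply strictMono_nat_of_lt_succ
    intro m
    have := hg (a (m + 1))
    rw [ha] at this
    change g (a m) < g (a (m + 1))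
    rw [ha]
    omega
  refine ⟨fun m => g (a m), fun m => G (a m), fun m => hG (a m), ?_⟩
  intro m m' hne
  refine ⟨fun e => ?_⟩
  have hc := Fintype.card_congr e.toEquiv
  simp only [Fintype.card_fin] at hc
  exact hne (hmono.injective hc)

end Pool.Agent.Results.MP_c25556_co.RootedIrregular
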